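import Pool.Agent.U426.PC.B
import Pool.Agent.Results.MP_5b7a2c_ag.DiscreteValuations

/-!
# One blowing up for infinite families of valuations on arithmetic schemes

Let `B` be a domain of finite type over the integers (of any dimension and any characteristic), with
the field of fractions `K`, and let `I₀` be a nonzero ideal of `B`. There is a nonzero element `δ` of
`B` such that for all `q` and `c` there is one blowing up of `X = Spec B`, in an ideal `I₀ I₁`, which
is regular at the centres of ALL the nontrivial valuation rings `V` of `K` which contain `B`, have a
finite residue field of at most `q` elements and satisfy `δ ∉ m_V ^ c`. If `V` is discrete (of rank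
one), then the last condition says `v(δ) < c`; so all the discrete valuation rings with finite
residue field lie in these families, and one blowing up works for all of them with bounded residue
field and bounded contact with the divisor of `δ`. The case of valuations of higher rank with a
principal maximal ideal is also included. The blowing up factors through the one in `I₀`.

The earlier results treat one valuation, or finitely many; here the families are infinite and the
blowing up is the same for all members. (For the integral models of a variety with smooth generic
fibre in characteristic zero, our results on points with values in local fields of bounded degree are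
similar; there `δ` is a natural number. Here the generic fibre may be singular and the characteristic
may be positive.)

The proof. On each of the finitely many charts of the blowing up of `I₀` a nonzero minor of the
Jacobian matrix of equations over a regular ring bounds the number of quadratic transforms along `V`
after which the local ring at the centre is regular (`Pool.Agent.U426.PC.star_hj`); we take for `δ` a
common multiple in `B` of these minors. The centres of the valuation rings of the family are closed
points with at most `q` elements in the residue field, hence finitely many on each model
(`Pool.Agent.U426.PC.finite_centres'`). We blow up those which are not regular, simultaneously; this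
lowers the bound for all the members of the family at the same time, and what is already regular
stays so (`Pool.Agent.U426.PC.level_zero'`).
-/

set_option autoImplicit false

namespace Pool.Agent.Results.MP_5b7a2c_ag.BoundedContactFamilies

open IsLocalRing Pool.Agent.Results.MP_5b7a2c_ag.DiscreteValuations

/-- The blowing up of `X = Spec A` in `V(I)` is regular at the centre of the lift of the valuation
ring `V` of the field of fractions of `A`. Here `f ∈ I` generates `I V`, and the centre of the lift
lies in the chart `Spec A[I / f]`. -/
def IsRegularAlong {F : Type} [Field F] (V : ValuationSubring F) (A : Subring F)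
    (I : Ideal A) : Prop :=
  ∃ f ∈ I, f ≠ 0 ∧ (∀ a ∈ I, (a : F) / (f : F) ∈ V) ∧
    IsRegularLocalRing (centreRing V (blowUpChart A I f))

/-- `V` is a nontrivial valuation ring of `K` with a finite residue field of at most `q` elements, it
contains `B`, and the element `δ` of `B` is not in the `c`-th power of the maximal ideal of `V`. -/
def IsInFamily {K : Type} [Field K] (B : Subring K) (δ : B) (q c : ℕ)
    (V : ValuationSubring K) : Prop :=
  B ≤ V.toSubring ∧ V ≠ ⊤ ∧ Finite (ResidueField V) ∧ Nat.card (ResidueField V) ≤ q ∧
    ∀ x : V, (x : K) = (δ : K) → x ∉ maximalIdeal V ^ c

/-- Let `B` be a domain which is generated as a ring by finitely many elements, `K` its field of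
fractions and `I₀` a nonzero ideal of `B`. There is a nonzero `δ ∈ B` such that for all `q` and `c`
there is a nonzero ideal `I₁` for which the blowing up of `Spec B` in `I₀ I₁` is regular at the
centres of all the nontrivial valuation rings `V` of `K` with `B ⊆ V`, `|V / m_V| ≤ q` (finite) and
`δ ∉ m_V ^ c`. -/
theorem result {K : Type} [Field K] (B : Subring K)
    (hB : ∃ T : Set K, T.Finite ∧ B = Subring.closure T)
    (hK : ∀ z : K, ∃ a ∈ B, ∃ b ∈ B, b ≠ 0 ∧ z = a * b⁻¹) (I₀ : Ideal B) (hI₀ : I₀ ≠ ⊥) :
    ∃ δ : B, δ ≠ 0 ∧ ∀ q c : ℕ, ∃ I₁ : Ideal B, I₁ ≠ ⊥ ∧
      ∀ V : ValuationSubring K, IsInFamily B δ q c V → IsRegularAlong V B (I₀ * I₁) := by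
  obtain ⟨T, hT, hBT⟩ := hB
  have hB' : B = Subring.closure (((Int.castRingHom K).range : Set K) ∪ T) := by
    rw [hBT]
    apply le_antisymm
    · exact Subring.closure_mono Set.subset_union_right
    · rw [Subring.closure_le]
      rintro x (⟨n, rfl⟩ | hx)
      · exact intCast_mem _ n
      · exact Subring.subset_closure hx
  obtain ⟨δ, hδ, h⟩ := Pool.Agent.U426.PC.main_arcs
    (isBaseRing_of_isDedekindDomain (R := ℤ)).hj (Int.castRingHom K) hT hB' hK I₀ hI₀
  refine ⟨δ, hδ, fun q c => ?_⟩
  obtain ⟨I₁, hI₁, h1⟩ := h q c
  exact ⟨I₁, hI₁, fun V hV => h1 V hV.1 hV.2.1 hV.2.2.1 hV.2.2.2.1 hV.2.2.2.2⟩

end Pool.Agent.Results.MP_5b7a2c_ag.BoundedContactFamilies
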