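import Pool.Agent.U426.PB.F
import Pool.Agent.Results.MP_5b7a2c_ag.DiscreteValuations

/-!
# Simultaneous log uniformization of finitely many discrete valuations

Let `R` be a base ring in the sense of the starting result `DiscreteValuations` (a ring each of whose
quotient domains is a field, or is of finite type over a regular domain which is `F`-finite, or
formally smooth over a perfect field, or of characteristic zero), let `B` be a domain which is
essentially of finite type over `R`, with the field of fractions `K`, in any dimension and any
characteristic, and let `V_1, ..., V_n` be discrete valuation rings of `K` which contain `B`, with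
arbitrary residue fields; or, more generally, nontrivial valuation rings with divergent sequences of
quadratic transforms. Then for all nonzero ideals `D` and `I₀` of `B` there is a nonzero ideal `I₁`
such that the blowing up of `X = Spec B` in `I₀ I₁`, which factors through the blowing up in `I₀`, is
a log desingularization of `(X, V(D))` along all `V_i`. So the `V_i` are log uniformizable at the
same time, by one cofinal family of blowings up.

The starting result treats one valuation (also of higher rank): blowing up for `V_1` and then for
`V_2` may destroy the regularity at the centre of `V_1`, when this centre is in the closure of the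
centre of `V_2` on the blown up scheme.

The proof. `Pool.Agent.U426.PB.C.gstep3` describes what the blowing up of (a multiple of) the closure
of the centre of one `V_i` does to the local rings at the centres of all the others: nothing, if the
centre is not in this closure; a quadratic transform, if the two centres are equal. For each `V_i`
the generators of `D` and of the ideal that is blown up become monomials in regular parameters after
finitely many quadratic transforms, and this number (the level, `LvM`) does not increase in the two
cases, also for the new ideals. We treat the valuations in an order in which the closures of the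
centres grow; either all pairs of centres with `c_i ∈ closure c_j` stay such pairs, or their number
drops, and we start again (`Pool.Agent.U426.PB.all_traits3`).
-/

set_option autoImplicit false

namespace Pool.Agent.Results.MP_5b7a2c_ag.FinitelyManyDiscreteValuations

open Pool.Agent.Results.MP_5b7a2c_ag.DiscreteValuations Pool.Agent.TH188.QS

/-- `V` is a discrete valuation ring (of rank one), or it is not the whole field and its sequences of
quadratic transforms are divergent for all `R`-algebras of finite type. -/
def IsDiscreteOrDivergent {R K : Type} [CommRing R] [Field K] (ρ : R →+* K)
    (V : ValuationSubring K) : Prop :=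
  IsDiscreteValuationRing V ∨ (V ≠ ⊤ ∧ ∀ T : Set K, T.Finite → adjoined ρ T ≤ V.toSubring →
    IsDivergent V (adjoined ρ T))

/-- Let `R` be a base ring, `K` a field which is an `R`-algebra by `ρ`, let `B` be a subring of `K`
which is essentially of finite type over `R`, and suppose that `K` is the field of fractions of `B`.
Let `V i` be finitely many valuation rings of `K` which contain `B` and each of which is discrete of
rank one, or nontrivial with divergent sequences of quadratic transforms. Then for all nonzero
ideals `D` and `I₀` of `B` there is a nonzero ideal `I₁` such that the blowing-up of `X = Spec B` in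
`I₀ I₁` is a log desingularization of `(X, V(D))` along all the `V i`. -/
theorem result {R : Type} [CommRing R] (hR : IsBaseRing R) {K : Type} [Field K] (ρ : R →+* K)
    (B : Subring K) (hB : IsEssentiallyOfFiniteType ρ B)
    (hK : ∀ z : K, ∃ a ∈ B, ∃ b ∈ B, b ≠ 0 ∧ z = a * b⁻¹)
    {n : ℕ} (V : Fin n → ValuationSubring K) (hBV : ∀ i, B ≤ (V i).toSubring)
    (hV : ∀ i, IsDiscreteOrDivergent ρ (V i)) (D I₀ : Ideal B) (hD : D ≠ ⊥) (hI₀ : I₀ ≠ ⊥) :
    ∃ I₁ : Ideal B, I₁ ≠ ⊥ ∧ ∀ i, IsLogDesingularization (V i) B D (I₀ * I₁) := by
  obtain ⟨T, hT, hTB, hBT⟩ := hB
  refine Pool.Agent.U426.PB.main_log hR.hj ρ hT hTB hBT hK V hBV (fun i => ?_)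
    (fun i T' hT' hV' => ?_) D I₀ hD hI₀
  · rcases hV i with h | h
    · intro htop
      rw [htop] at h
      obtain ⟨ϖ, hϖ⟩ := IsDiscreteValuationRing.exists_irreducible (⊤ : ValuationSubring K)
      apply hϖ.not_isUnit
      have h0 : (ϖ : K) ≠ 0 := fun h => hϖ.ne_zero (Subtype.ext h)
      exact isUnit_iff_exists_inv.2 ⟨⟨(ϖ : K)⁻¹, trivial⟩, Subtype.ext (mul_inv_cancel₀ h0)⟩
    · exact h.1
  · rcases hV i with h | h
    · exact dv_of_dvr h fun n => qseq_le hV' n
    · exact (h.2 T' hT' hV').dv

end Pool.Agent.Results.MP_5b7a2c_ag.FinitelyManyDiscreteValuations
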