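import Pool.Agent.U186.ASC.Fin

/-!
MP_5b7a2c_ag: ascent of log uniformization to loci where the rank of a matrix drops, in arbitrary
dimension and in mixed characteristic.

Let `V` be a valuation ring of a field `K`, with residue characteristic `p > 0`, let `E` be a
subfield of `K` and `R` a noetherian subring of `E ∩ V` with fraction field `E`. Suppose that
`V ∩ E` is log uniformizable on `Spec R`; this holds for Dedekind rings `R`, and it is known for
quasi-excellent `R` of dimension at most `3` (Cossart, Piltant). Let `K` be the function field of an
irreducible component of the locus in the affine space over `E`, with the coordinates `t e`, where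
the columns of the `a × b` matrix `M + ∑ e, t e ^ m e • u e ⊗ v e` are linearly dependent, with `M`,
`u e`, `v e` over `E` and `m e` prime to `p`. The matrix over `K` has a kernel which is a line;
let `w` be a kernel vector with a coordinate one. Then `V` is log uniformizable with respect to
monomials on every scheme `X = Spec A`, where `A` is generated over `R` by monomials (products of
powers of elements of `E`, of the `t e`, and of linear combinations over `E` of the `w j` and
`t e ^ m e * (v e ⬝ w)`) and the `t e` and `w j` have multiples in `A` with a factor in `R`. For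
instance, if the entries are in `R` and `w j ∈ V` (one can choose the coordinate which is one in
this way), `A = R[t, w]` is the coordinate ring of a chart of the incidence variety of the points of
the component and their kernels, a projective birational modification of its closure in
`Spec R × 𝔸^N`. There are no conditions on the dimension, on the rank of `V`, on the defect and on
the residue field extension.

Examples: graph and configuration hypersurfaces `det (M + ∑ e, t e • u e ⊗ v e) = 0` over rings of
integers or over threefolds (first Symanzik polynomials of graphs with constants), determinantal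
varieties of sparse generic matrices, and their coverings `t e ↦ t e ^ m e`.

The proof: the coordinates of `w` and the elements `t e ^ m e * (v e ⬝ w)` satisfy only linear
relations (library of `MP_b525bf_ag.RankDropLoci`, here for all fields `E`), so the equations
`t e ^ m e * (v e ⬝ w) = y e`, of degrees independent modulo `p`, are a complete system of relations,
and the ascent theorem of the starting files applies (`Pool.Agent.W418.LU2.ascent`). In equal
characteristic and over perfect fields the local form is `MP_3029eb_ag.RankDropLociLU`.

helper186.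
-/

set_option autoImplicit false

universe u

namespace Pool.Agent.Results.MP_5b7a2c_ag.RankDropAscent

open Pool.Agent.W418.LU2

/-- The local ring of `Spec B` at the centre of the valuation ring `V`: the fractions of elements
of `B` whose denominators are units of `V`. -/
def centreRing {F : Type u} [Field F] (V : ValuationSubring F) (B : Subring F) : Subring F where
  carrier := {x | ∃ a ∈ B, ∃ b ∈ B, b ≠ 0 ∧ b⁻¹ ∈ V ∧ x = a * b⁻¹}
  mul_mem' := (lo V.toSubring B).mul_mem'
  one_mem' := (lo V.toSubring B).one_mem'
  add_mem' := (lo V.toSubring B).add_mem'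
  zero_mem' := (lo V.toSubring B).zero_mem'
  neg_mem' := (lo V.toSubring B).neg_mem'

/-- The chart `A[I / f]` of the blowing-up of `Spec A` in the ideal `I`. -/
def blowUpChart {F : Type u} [Field F] (A : Subring F) (I : Ideal A) (f : A) : Subring F :=
  Subring.closure ((A : Set F) ∪ {z | ∃ a ∈ I, z = (a : F) / (f : F)})

/-- `P` is a regular local ring and the zero set of `J` is a divisor with strict normal
crossings: the radical of `J` is generated by the product of some of the elements of a regular
system of parameters. -/
def RegularPair (P : Type u) [CommRing P] (J : Ideal P) : Prop :=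
  ∃ (_ : IsRegularLocalRing P) (n : ℕ) (x : Fin n → P) (s : Finset (Fin n)),
    Ideal.span (Set.range x) = IsLocalRing.maximalIdeal P ∧ ringKrullDim P = n ∧
      J.radical = Ideal.span {∏ i ∈ s, x i}

/-- The blowing-up of `X = Spec A` in `V(I)` is a log desingularization of `(X, V(D))` along the
valuation ring `V`. Here `f ∈ I` generates `I V`, the centre of the lift of the valuation lies in
the chart `Spec A[I / f]`, and the ideal `D I` defines the preimage of `V(D) ∪ V(I)`. -/
def IsLogDesingularization {F : Type u} [Field F] (V : ValuationSubring F) (A : Subring F)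
    (D I : Ideal A) : Prop :=
  ∃ f ∈ I, f ≠ 0 ∧ (∀ a ∈ I, (a : F) / (f : F) ∈ V) ∧
    RegularPair (centreRing V (blowUpChart A I f))
      (Ideal.span {z | ∃ a ∈ D * I, (z : F) = (a : F)})

/-- The valuation ring `V` is log uniformizable on `Spec A`. (The blowings-up in the ideals
`I₀ * I₁` are cofinal: the blowing-up in `I₀ * I₁` factors through the blowing-up in `I₀`.) -/
def IsLogUniformizable {F : Type u} [Field F] (V : ValuationSubring F) (A : Subring F) : Prop :=
  ∀ D I₀ : Ideal A, D ≠ ⊥ → I₀ ≠ ⊥ →
    ∃ I₁ : Ideal A, I₁ ≠ ⊥ ∧ IsLogDesingularization V A D (I₀ * I₁)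

/-- The `a × b` matrix `M + ∑ e, x e • u e ⊗ v e` over the `E`-algebra `S`. -/
noncomputable def pencil {E S : Type u} [CommRing E] [CommRing S] [Algebra E S] {a b N : ℕ}
    (M : Matrix (Fin a) (Fin b) E) (u : Fin N → Fin a → E) (v : Fin N → Fin b → E)
    (x : Fin N → S) : Matrix (Fin a) (Fin b) S :=
  Matrix.of fun i j => algebraMap E S (M i j) + ∑ e, x e * algebraMap E S (u e i * v e j)

/-- The ideal generated by the minors of size `b` of an `a × b` matrix. Its zeros are the points at
which the rank is less than `b`. -/
noncomputable def columnMinors {S : Type u} [CommRing S] {a b : ℕ}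
    (B : Matrix (Fin a) (Fin b) S) : Ideal S :=
  Ideal.span (Set.range fun f : Fin b → Fin a => (B.submatrix f id).det)

/-- The elements `w j` and `t e ^ m e * ∑ j, v e j * w j`. -/
noncomputable def coordinates {E K : Type u} [Field E] [Field K] [Algebra E K] {b N : ℕ}
    (v : Fin N → Fin b → E) (m : Fin N → ℕ) (t : Fin N → K) (w : Fin b → K) : Fin b ⊕ Fin N → K :=
  Sum.elim w fun e => t e ^ m e * ∑ j, algebraMap E K (v e j) * w j

/-- The group of monomials: the subgroup of `Kˣ` which is generated by the nonzero elements of
`E`, by the nonzero linear combinations over `E` of the `w j` and `t e ^ m e * ∑ j, v e j * w j`,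
and by the nonzero `t e`. -/
def monomials {E K : Type u} [Field E] [Field K] [Algebra E K] {b N : ℕ}
    (v : Fin N → Fin b → E) (m : Fin N → ℕ) (t : Fin N → K) (w : Fin b → K) : Subgroup Kˣ :=
  Subgroup.closure {z | (z : K) ∈ Set.range (algebraMap E K) ∨
    (z : K) ∈ Submodule.span E (Set.range (coordinates v m t w)) ∨ ∃ e, (z : K) = t e}

/-- `I` is a nonzero ideal which is generated by finitely many monomials (and zero). -/
def IsMonomialIdeal {E K : Type u} [Field E] [Field K] [Algebra E K] {b N : ℕ}
    (v : Fin N → Fin b → E) (m : Fin N → ℕ) (t : Fin N → K) (w : Fin b → K) {A : Subring K}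
    (I : Ideal A) : Prop :=
  I ≠ ⊥ ∧ ∃ S : Set A, S.Finite ∧
    (∀ a ∈ S, (a : K) ≠ 0 → ∃ z ∈ monomials v m t w, (z : K) = a) ∧ I = Ideal.span S

/-- Let `V` be a valuation ring of a field `K` in which the prime number `p` is not a unit, let `E`
be a subfield of `K`, and `R` a noetherian subring of `E` with fraction field `E` which lies in `V`.
Suppose that `R` is a Dedekind ring (or a field), or that `V ∩ E` is log uniformizable on `Spec R`.
Let `M` be an `a × b` matrix over `E`, let `u e`, `v e` be vectors over `E` and `m e` integers prime
to `p`, such that the matrix `M + ∑ e, X e ^ m e • u e ⊗ v e` over `E[X 0, ..., X (N - 1)]` has rank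
`b`. Let `P` be the prime ideal of an irreducible component of the closed subset of `𝔸^N` over `E` at
which its rank is less than `b`, and let `K` be its function field, with the coordinate functions
`t e`. Let `w` be a vector over `K`, with a coordinate one, in the kernel of the matrix
`M + ∑ e, t e ^ m e • u e ⊗ v e`. Let `X = Spec A`, where `A` is generated over `R` by finitely many
monomials, `A ⊆ V`, and the `t e` and `w j` have nonzero multiples in `A` with a factor in `R`. Then
for every closed set `V(D)` and every blowing-up `X₀` of `X` given by monomial ideals `D` and `I₀`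
there is a monomial ideal `I₁` such that the blowing-up of `X` in `I₀ * I₁`, which factors through
`X₀`, is a log desingularization of `(X, V(D))` along `V`. -/
theorem result {E K : Type u} [Field E] [Field K] [Algebra E K] (V : ValuationSubring K)
    (p : ℕ) [Fact p.Prime] (hpV : V.valuation (p : K) < 1)
    (R : Subring E) [IsNoetherianRing R]
    (hfr : ∀ z : E, ∃ a ∈ R, ∃ b ∈ R, b ≠ 0 ∧ z = a * b⁻¹)
    (hRV : ∀ a ∈ R, algebraMap E K a ∈ V)
    (hR : IsDedekindDomain R ∨ IsLogUniformizable (V.comap (algebraMap E K)) R)
    {a b N : ℕ} (M : Matrix (Fin a) (Fin b) E) (u : Fin N → Fin a → E) (v : Fin N → Fin b → E)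
    (m : Fin N → ℕ) (hm : ∀ e, ¬ p ∣ m e)
    (h0 : columnMinors (pencil M u v fun e => (MvPolynomial.X e : MvPolynomial (Fin N) E) ^ m e) ≠ ⊥)
    (P : Ideal (MvPolynomial (Fin N) E))
    (hP : P ∈ (columnMinors (pencil M u v
      fun e => (MvPolynomial.X e : MvPolynomial (Fin N) E) ^ m e)).minimalPrimes)
    (t : Fin N → K) (hgen : IntermediateField.adjoin E (Set.range t) = ⊤)
    (hPt : ∀ F : MvPolynomial (Fin N) E, F ∈ P ↔ MvPolynomial.aeval t F = (0 : K))
    (w : Fin b → K) (hw1 : ∃ i, w i = 1) (hw : (pencil M u v fun e => t e ^ m e).mulVec w = 0)
    (G : Set K) (hG : G.Finite) (hGm : ∀ z ∈ G, ∃ x ∈ monomials v m t w, (x : K) = z)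
    (A : Subring K) (hA : A = Subring.closure ((R.map (algebraMap E K) : Set K) ∪ G))
    (hAV : A ≤ V.toSubring)
    (htA : ∀ e, ∃ c ∈ R, c ≠ 0 ∧ algebraMap E K c * t e ∈ A)
    (hwA : ∀ j, ∃ c ∈ R, c ≠ 0 ∧ algebraMap E K c * w j ∈ A)
    (D I₀ : Ideal A) (hD : IsMonomialIdeal v m t w D) (hI₀ : IsMonomialIdeal v m t w I₀) :
    ∃ I₁ : Ideal A, IsMonomialIdeal v m t w I₁ ∧ IsLogDesingularization V A D (I₀ * I₁) := by
  have hRW : R ≤ (V.comap (algebraMap E K)).toSubring := fun a ha => hRV a ha
  have hLU : LogUnif (V.comap (algebraMap E K)) R := by
    rcases hR with hR | hR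
    · exact logUnif_of_dedekind _ R hRW hfr
    · exact hR
  obtain ⟨i₀, hi₀⟩ := hw1
  exact Pool.Agent.U186.RD.drop_ascent V p hpV R hfr hRV hLU M u v m hm h0 P hP t hgen hPt w i₀ hi₀
    hw G hG hGm A hA hAV htA hwA D I₀ hD hI₀

end Pool.Agent.Results.MP_5b7a2c_ag.RankDropAscent
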